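import Mathlib
import Pool.Agent.Helper669_gp.Base
import Pool.Agent.Helper669_gp.Main
import Pool.Agent.Helper669_gp.Trans

/-!
Complete classification of the good pairs `(Γ, S)`, where `Γ` is a Fuchsian group which is oriented
of genus `0` or `1` or non-oriented of genus `1` or `2`, and `S` is a set of pairwise
non-isomorphic finite simple groups of the form `PSL_2(q)`.
-/

namespace Pool.Agent.Results.MP_65e34f_al.GoodPairsPSL2

open Pool.Agent.Helper669_gp
open scoped MatrixGroups

/-- Let `Γ` be a Fuchsian group, oriented of genus `0` or `1` or non-oriented of genus `1` or `2`,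
with periods `m_i` and `s` parabolic generators, and let `S` be a set of pairwise non-isomorphic
groups `PSL_2(q)` (they are simple for `q > 3`). Then `(Γ, S)` is good if and only if the
arithmetic criterion `Crit` on `Γ` and `q` holds for all but finitely many members `PSL_2(q)` of
`S`. -/
theorem result (oriented : Bool) (g : ℕ)
    (hg : (oriented = true ∧ (g = 0 ∨ g = 1)) ∨ (oriented = false ∧ (g = 1 ∨ g = 2)))
    {d : ℕ} (m : Fin d → ℕ) (hm : ∀ i, 2 ≤ m i) (s : ℕ) (S : Set GrpCat.{0})
    (hiso : ∀ G ∈ S, ∀ H ∈ S, Nonempty (G ≃* H) → G = H)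
    (hS : ∀ G ∈ S, ∃ (F : Type) (_ : Field F), Finite F ∧ Nonempty (G ≃* PSL(2, F))) :
    IsGood (FuchsianGroup oriented g m s) S ↔
      {G ∈ S | ¬ ∀ (F : Type) (_ : Field F), Finite F → Nonempty (G ≃* PSL(2, F)) →
        Crit oriented g s (Nat.card F) (eff m (Nat.card G))}.Finite := by
  rw [isGood_iff, main ⟨toKind oriented, g, d, m, s⟩ ?_ hm S hiso hS]
  · have h : ∀ q ms, Crit oriented g s q ms ↔ Cond (toKind oriented) g s q ms :=
      fun q ms => crit_iff oriented g s q ms hg
    simp only [h]
    rfl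
  · rcases hg with ⟨rfl, h⟩ | ⟨rfl, h⟩
    · exact Or.inl ⟨rfl, h⟩
    · exact Or.inr ⟨rfl, h⟩

end Pool.Agent.Results.MP_65e34f_al.GoodPairsPSL2
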